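import Mathlib

/-!
# Rich flows: the bound `⌊1.5 Δ + 1⌋` fails

Problem MP_9610b2_co, Q1.  We exhibit a rich flow admissible graph with maximum degree `5`
(15 vertices, 35 edges) that has no rich `⌊1.5 * 5 + 1⌋ = 8`-flow.

The graph: take the fat triangle on `A, B, C` with three parallel edges `AB`, two parallel edges
`AC` and two parallel edges `BC`.  Its seven edges are pairwise adjacent, so a rich `8`-flow uses
each of the absolute values `1, …, 7` exactly once; a finite check shows that the value `5` never
occurs on the three parallel `AB` edges.  Cutting one of those `AB` edges gives a two-pole which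
cannot carry the value `5` through.  Insert one copy of this two-pole into each of the
`AC` and `BC` edges of another copy of the fat triangle.
-/

set_option autoImplicit false

namespace Pool.Agent.Results.MP_9610b2_co.RichFlowCounterexample

/-- A loopless multigraph with vertex type `V` and edge type `E`:
each edge has an unordered pair of end vertices, which are distinct. -/
structure MGraph (V E : Type) where
  /-- the unordered pair of ends of an edge -/
  ends : E → Sym2 V
  /-- there are no loops -/
  loopless : ∀ e, ¬ (ends e).IsDiag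

namespace MGraph

variable {V E : Type}

/-- The degree of a vertex: the number of edges (parallel edges counted separately)
having it as an end. -/
noncomputable def degree (G : MGraph V E) (v : V) : ℕ := Nat.card {e : E // v ∈ G.ends e}

/-- `Δ` is the maximum degree of `G`. -/
def HasMaxDegree (G : MGraph V E) (Δ : ℕ) : Prop :=
  (∀ v, G.degree v ≤ Δ) ∧ ∃ v, G.degree v = Δ

/-- Two edges have a common end vertex. -/
def ShareEnd (G : MGraph V E) (e f : E) : Prop := ∃ v, v ∈ G.ends e ∧ v ∈ G.ends f

/-- After deleting the set `S` of edges: which pairs of distinct vertices are still joined by an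
edge. -/
def delete (G : MGraph V E) (S : Set E) : SimpleGraph V :=
  SimpleGraph.fromRel (fun u v => ∃ e, e ∉ S ∧ G.ends e = s(u, v))

/-- The number of connected components after deleting the set `S` of edges. -/
noncomputable def numComponents (G : MGraph V E) (S : Set E) : ℕ :=
  Nat.card (G.delete S).ConnectedComponent

/-- Deleting the set `S` of edges increases the number of connected components. -/
def Separates (G : MGraph V E) (S : Set E) : Prop := G.numComponents ∅ < G.numComponents S

/-- `G` is rich flow admissible: it has no bridge, and no `2`-edge-cut consists of two edges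
with a common end vertex. -/
def RichFlowAdmissible (G : MGraph V E) : Prop :=
  (∀ e, ¬ G.Separates {e}) ∧ ∀ e f, e ≠ f → G.Separates {e, f} → ¬ G.ShareEnd e f

/-- A `ℤ`-flow: every edge is assigned an orientation (from `tail e` to `head e`) and an integer
value such that at every vertex the values on incoming edges and the values on outgoing edges have
the same sum. -/
structure ZFlow [Fintype E] [DecidableEq V] (G : MGraph V E) where
  /-- the tail of an edge in the chosen orientation -/
  tail : E → V
  /-- the head of an edge in the chosen orientation -/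
  head : E → V
  /-- the orientation orients the edge along its ends -/
  ends_eq : ∀ e, G.ends e = s(tail e, head e)
  /-- the value of an edge -/
  val : E → ℤ
  /-- conservation at every vertex -/
  conserve : ∀ v, (∑ e with head e = v, val e) = ∑ e with tail e = v, val e

/-- `φ` is a rich `k`-flow: all values are nonzero and less than `k` in absolute value, and
distinct edges with a common end have different absolute values. -/
def ZFlow.IsRich [Fintype E] [DecidableEq V] {G : MGraph V E} (φ : G.ZFlow) (k : ℤ) : Prop :=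
  (∀ e, φ.val e ≠ 0 ∧ |φ.val e| < k) ∧
    ∀ e f, e ≠ f → G.ShareEnd e f → |φ.val e| ≠ |φ.val f|

end MGraph

open MGraph

/-! ### The graph -/

/-- first ends of the 35 edges -/
def src : Fin 35 → Fin 15 :=
  ![0, 0, 0,
    0, 4, 3, 3, 3, 3, 5, 5,
    0, 7, 6, 6, 6, 6, 8, 8,
    1, 10, 9, 9, 9, 9, 11, 11,
    1, 13, 12, 12, 12, 12, 14, 14]

/-- second ends of the 35 edges -/
def tgt : Fin 35 → Fin 15 :=
  ![1, 1, 1,
    3, 2, 4, 4, 5, 5, 4, 4,
    6, 2, 7, 7, 8, 8, 7, 7,
    9, 2, 10, 10, 11, 11, 10, 10,
    12, 2, 13, 13, 14, 14, 13, 13]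

/-- the counterexample -/
def CG : MGraph (Fin 15) (Fin 35) where
  ends e := s(src e, tgt e)
  loopless := by decide

/-! ### Reference orientation -/

/-- the value of the flow with respect to the reference orientation `src e → tgt e` -/
def refVal (φ : CG.ZFlow) (e : Fin 35) : ℤ := if φ.tail e = src e then φ.val e else - φ.val e

lemma src_ne_tgt (e : Fin 35) : src e ≠ tgt e := by
  revert e; decide

lemma orient (φ : CG.ZFlow) (e : Fin 35) :
    (φ.tail e = src e ∧ φ.head e = tgt e) ∨ (φ.tail e = tgt e ∧ φ.head e = src e) := by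
  have h := φ.ends_eq e
  have h2 : s(src e, tgt e) = s(φ.tail e, φ.head e) := h
  rw [Sym2.eq_iff] at h2
  rcases h2 with ⟨h1, h2⟩ | ⟨h1, h2⟩
  · left; exact ⟨h1.symm, h2.symm⟩
  · right; exact ⟨h2.symm, h1.symm⟩

lemma abs_refVal (φ : CG.ZFlow) (e : Fin 35) : |refVal φ e| = |φ.val e| := by
  unfold refVal
  split_ifs <;> simp

lemma conserve_ref (φ : CG.ZFlow) (v : Fin 15) :
    ∑ e : Fin 35, ((if tgt e = v then refVal φ e else 0) - (if src e = v then refVal φ e else 0))
      = 0 := by
  have h := φ.conserve v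
  rw [Finset.sum_filter, Finset.sum_filter] at h
  rw [← sub_eq_zero, ← Finset.sum_sub_distrib] at h
  refine Eq.trans (Finset.sum_congr rfl ?_) h
  intro e _
  clear h
  rcases orient φ e with ⟨h1, h2⟩ | ⟨h1, h2⟩
  · have h4 : refVal φ e = φ.val e := by
      unfold refVal
      rw [h1, if_pos rfl]
    rw [h2, h1, h4]
  · have h3 : ¬ (tgt e = src e) := fun h => src_ne_tgt e h.symm
    have h4 : refVal φ e = - φ.val e := by
      unfold refVal
      rw [h1, if_neg h3]
    rw [h2, h1, h4]
    split_ifs <;> simp

/-! ### The finite check -/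

/-- the allowed values different from `5` and `-5` -/
def L : List ℤ := [1, 2, 3, 4, 6, 7, -1, -2, -3, -4, -6, -7]

lemma mem_L {x : ℤ} (h0 : x ≠ 0) (h : |x| < 8) (h5 : |x| ≠ 5) : x ∈ L := by
  have h1 := abs_lt.1 h
  obtain ⟨h2, h3⟩ := h1
  have h6 : x ≠ 5 := by rintro rfl; exact h5 rfl
  have h7 : x ≠ -5 := by rintro rfl; exact h5 rfl
  have : x = 1 ∨ x = 2 ∨ x = 3 ∨ x = 4 ∨ x = 6 ∨ x = 7 ∨ x = -1 ∨ x = -2 ∨ x = -3 ∨
      x = -4 ∨ x = -6 ∨ x = -7 := by omega
  simp only [L, List.mem_cons, List.not_mem_nil, or_false]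
  exact this

/-- the last part of the check: `r, s`, `t, u` and `a, p, q` are the values on the three
parallel classes -/
def chk3 (a r s t u p q : ℤ) : Bool :=
  !(L.contains q) || p.natAbs == r.natAbs || p.natAbs == s.natAbs ||
    p.natAbs == t.natAbs || p.natAbs == u.natAbs || q.natAbs == r.natAbs ||
    q.natAbs == s.natAbs || q.natAbs == t.natAbs || q.natAbs == u.natAbs ||
    q.natAbs == p.natAbs || !(a == p + q + (r + s))

/-- the middle part of the check -/
def chk2 (r s t u : ℤ) : Bool :=
  !(L.contains u) || u.natAbs == r.natAbs || u.natAbs == s.natAbs ||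
    u.natAbs == t.natAbs ||
      L.all fun p => chk3 5 r s t u p (5 - (r + s) - p) && chk3 (-5) r s t u p (-5 - (r + s) - p)

/-- the whole check -/
def chk : Bool :=
  L.all fun r => L.all fun s => s.natAbs == r.natAbs ||
    L.all fun t => t.natAbs == r.natAbs || t.natAbs == s.natAbs || chk2 r s t (r + s - t)

lemma chk_true : chk = true := by decide +kernel

/-- In a closed fat triangle, with `a, p, q` on the three parallel edges, the value `5` cannot be
used on `a`. -/
lemma blob (a p q r s t u : ℤ)
    (hp : p ≠ 0 ∧ |p| < 8) (hq : q ≠ 0 ∧ |q| < 8) (hr : r ≠ 0 ∧ |r| < 8) (hs : s ≠ 0 ∧ |s| < 8)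
    (ht : t ≠ 0 ∧ |t| < 8) (hu : u ≠ 0 ∧ |u| < 8)
    (hap : |a| ≠ |p|) (haq : |a| ≠ |q|) (har : |a| ≠ |r|) (has : |a| ≠ |s|) (hat : |a| ≠ |t|)
    (hau : |a| ≠ |u|) (hpq : |p| ≠ |q|) (hpr : |p| ≠ |r|) (hps : |p| ≠ |s|) (hpt : |p| ≠ |t|)
    (hpu : |p| ≠ |u|) (hqr : |q| ≠ |r|) (hqs : |q| ≠ |s|) (hqt : |q| ≠ |t|) (hqu : |q| ≠ |u|)
    (hrs : |r| ≠ |s|) (hrt : |r| ≠ |t|) (hru : |r| ≠ |u|) (hst : |s| ≠ |t|) (hsu : |s| ≠ |u|)
    (htu : |t| ≠ |u|) (h1 : a = p + q + (r + s)) (h2 : r + s = t + u) : |a| ≠ 5 := by
  intro h5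
  have key := chk_true
  unfold chk at key
  rw [List.all_eq_true] at key
  have k1 := key r (mem_L hr.1 hr.2 (by rw [← h5]; exact har.symm))
  rw [List.all_eq_true] at k1
  have k2 := k1 s (mem_L hs.1 hs.2 (by rw [← h5]; exact has.symm))
  rw [Bool.or_eq_true, List.all_eq_true] at k2
  have conv : ∀ x y : ℤ, |x| ≠ |y| → (x.natAbs == y.natAbs) = false := by
    intro x y hxy
    rw [beq_eq_false_iff_ne]
    intro h
    apply hxy
    rw [Int.abs_eq_natAbs, Int.abs_eq_natAbs, h]
  have k3 := (k2.resolve_left (by rw [conv _ _ hrs.symm]; simp)) t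
    (mem_L ht.1 ht.2 (by rw [← h5]; exact hat.symm))
  have hu' : r + s - t = u := by omega
  rw [hu', conv _ _ hrt.symm, conv _ _ hst.symm, Bool.false_or, Bool.false_or] at k3
  unfold chk2 at k3
  have hmu : L.contains u = true := by
    rw [List.contains_iff_mem]
    exact mem_L hu.1 hu.2 (by rw [← h5]; exact hau.symm)
  rw [hmu, conv _ _ hru.symm, conv _ _ hsu.symm, conv _ _ htu.symm, Bool.not_true, Bool.false_or,
    Bool.false_or, Bool.false_or, Bool.false_or, List.all_eq_true] at k3
  have k4 := k3 p (mem_L hp.1 hp.2 (by rw [← h5]; exact hap.symm))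
  rw [Bool.and_eq_true] at k4
  have hmq : L.contains q = true := by
    rw [List.contains_iff_mem]
    exact mem_L hq.1 hq.2 (by rw [← h5]; exact haq.symm)
  have k5 : chk3 a r s t u p q = true := by
    rcases (abs_eq (by norm_num : (0:ℤ) ≤ 5)).1 h5 with h | h
    · have := k4.1
      rw [show (5 - (r + s) - p) = q by omega] at this
      rw [h]; exact this
    · have := k4.2
      rw [show (-5 - (r + s) - p) = q by omega] at this
      rw [h]; exact this
  unfold chk3 at k5
  have hb : (a == p + q + (r + s)) = true := by rw [h1]; simp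
  rw [hmq, conv _ _ hpr, conv _ _ hps, conv _ _ hpt, conv _ _ hpu, conv _ _ hqr, conv _ _ hqs,
    conv _ _ hqt, conv _ _ hqu, conv _ _ hpq.symm, hb] at k5
  simp at k5

/-! ### Connectivity -/

/-- the edges together with their ends -/
def edgeList : List (Fin 35 × Fin 15 × Fin 15) :=
  [(0, 0, 1), (1, 0, 1), (2, 0, 1), (3, 0, 3), (4, 4, 2), (5, 3, 4), (6, 3, 4), (7, 3, 5),
   (8, 3, 5), (9, 5, 4), (10, 5, 4), (11, 0, 6), (12, 7, 2), (13, 6, 7), (14, 6, 7), (15, 6,
   8), (16, 6, 8), (17, 8, 7), (18, 8, 7), (19, 1, 9), (20, 10, 2), (21, 9, 10), (22, 9, 10),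
   (23, 9, 11), (24, 9, 11), (25, 11, 10), (26, 11, 10), (27, 1, 12), (28, 13, 2), (29, 12,
   13), (30, 12, 13), (31, 12, 14), (32, 12, 14), (33, 14, 13), (34, 14, 13)]

lemma edgeList_spec : ∀ x ∈ edgeList, src x.1 = x.2.1 ∧ tgt x.1 = x.2.2 := by
  intro x hx
  have h : (edgeList.all fun x => src x.1 == x.2.1 && tgt x.1 == x.2.2) = true := by
    decide +kernel
  rw [List.all_eq_true] at h
  have h2 := h x hx
  rw [Bool.and_eq_true, beq_iff_eq, beq_iff_eq] at h2
  exact h2

/-- one step of the search: `m` is the set of vertices already reached, as a bit mask -/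
def step (d₁ d₂ : Fin 35) (m : ℕ) (x : Fin 35 × Fin 15 × Fin 15) : ℕ :=
  if x.1 = d₁ then m else if x.1 = d₂ then m else
    if m.testBit x.2.1.val || m.testBit x.2.2.val then
      m ||| ((1 <<< x.2.1.val) ||| (1 <<< x.2.2.val)) else m

/-- one round of the search -/
def round (d₁ d₂ : Fin 35) (m : ℕ) : ℕ := edgeList.foldl (step d₁ d₂) m

/-- `3` rounds of the search, starting at vertex `0` -/
def search (d₁ d₂ : Fin 35) : ℕ := round d₁ d₂ (round d₁ d₂ (round d₁ d₂ 1))

/-- the search reaches all vertices -/
def searchOK : Bool :=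
  (List.finRange 35).all fun d₁ => (List.finRange 35).all fun d₂ =>
    !(src d₁ == src d₂ || src d₁ == tgt d₂ || tgt d₁ == src d₂ || tgt d₁ == tgt d₂) ||
      search d₁ d₂ == 2 ^ 15 - 1

lemma searchOK_true : searchOK = true := by decide +kernel

lemma step_sound (d₁ d₂ : Fin 35) (m : ℕ) (x : Fin 35 × Fin 15 × Fin 15) (hx : x ∈ edgeList)
    (hm : ∀ v : Fin 15, m.testBit v.val = true → (CG.delete {d₁, d₂}).Reachable 0 v) :
    ∀ v : Fin 15, (step d₁ d₂ m x).testBit v.val = true →
      (CG.delete {d₁, d₂}).Reachable 0 v := by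
  intro v hv
  obtain ⟨hs, ht⟩ := edgeList_spec x hx
  unfold step at hv
  split_ifs at hv with h1 h2 h3
  · exact hm v hv
  · exact hm v hv
  · have hadj : (CG.delete {d₁, d₂}).Adj x.2.1 x.2.2 := by
      unfold MGraph.delete
      rw [SimpleGraph.fromRel_adj]
      refine ⟨?_, Or.inl ⟨x.1, ?_, ?_⟩⟩
      · rw [← hs, ← ht]; exact src_ne_tgt x.1
      · simp [h1, h2]
      · show s(src x.1, tgt x.1) = s(x.2.1, x.2.2)
        rw [hs, ht]
    rw [Nat.testBit_or, Nat.testBit_or, Bool.or_eq_true, Bool.or_eq_true] at hv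
    rw [Bool.or_eq_true] at h3
    have hr1 : (CG.delete {d₁, d₂}).Reachable 0 x.2.1 := by
      rcases h3 with h3 | h3
      · exact hm _ h3
      · exact (hm _ h3).trans hadj.reachable.symm
    have hr2 : (CG.delete {d₁, d₂}).Reachable 0 x.2.2 := hr1.trans hadj.reachable
    rcases hv with hv | hv | hv
    · exact hm v hv
    · rw [Nat.one_shiftLeft, Nat.testBit_two_pow] at hv
      have : x.2.1 = v := Fin.ext (by simpa using hv)
      rw [← this]; exact hr1
    · rw [Nat.one_shiftLeft, Nat.testBit_two_pow] at hv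
      have : x.2.2 = v := Fin.ext (by simpa using hv)
      rw [← this]; exact hr2
  · exact hm v hv

lemma foldl_sound (d₁ d₂ : Fin 35) (l : List (Fin 35 × Fin 15 × Fin 15))
    (hl : ∀ x ∈ l, x ∈ edgeList) : ∀ (m : ℕ)
    (_ : ∀ v : Fin 15, m.testBit v.val = true → (CG.delete {d₁, d₂}).Reachable 0 v),
    ∀ v : Fin 15, (l.foldl (step d₁ d₂) m).testBit v.val = true →
      (CG.delete {d₁, d₂}).Reachable 0 v := by
  induction l with
  | nil => intro m hm v hv; exact hm v hv
  | cons a l ih =>
    intro m hm v hv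
    rw [List.foldl_cons] at hv
    exact ih (fun x hx => hl x (List.mem_cons_of_mem _ hx)) _
      (step_sound d₁ d₂ m a (hl a List.mem_cons_self) hm) v hv

lemma search_sound (d₁ d₂ : Fin 35) (v : Fin 15) (hv : (search d₁ d₂).testBit v.val = true) :
    (CG.delete {d₁, d₂}).Reachable 0 v := by
  have hr : ∀ (m : ℕ)
      (_ : ∀ v : Fin 15, m.testBit v.val = true → (CG.delete {d₁, d₂}).Reachable 0 v),
      ∀ v : Fin 15, (round d₁ d₂ m).testBit v.val = true →
        (CG.delete {d₁, d₂}).Reachable 0 v :=
    fun m hm => foldl_sound d₁ d₂ edgeList (fun x hx => hx) m hm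
  have h0 : ∀ v : Fin 15, (1 : ℕ).testBit v.val = true → (CG.delete {d₁, d₂}).Reachable 0 v := by
    intro v hv
    have h1 : (2 ^ 0 : ℕ).testBit v.val = true := hv
    rw [Nat.testBit_two_pow] at h1
    have : (0 : Fin 15) = v := Fin.ext (by simpa using h1)
    rw [← this]
  exact hr _ (hr _ (hr _ h0)) v hv

lemma connected_delete (d₁ d₂ : Fin 35) (h : CG.ShareEnd d₁ d₂) :
    CG.numComponents {d₁, d₂} = 1 := by
  have key := searchOK_true
  unfold searchOK at key
  rw [List.all_eq_true] at key
  have k1 := key d₁ (List.mem_finRange _)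
  rw [List.all_eq_true] at k1
  have k2 := k1 d₂ (List.mem_finRange _)
  have hshare : (src d₁ == src d₂ || src d₁ == tgt d₂ || tgt d₁ == src d₂ ||
      tgt d₁ == tgt d₂) = true := by
    obtain ⟨v, hv1, hv2⟩ := h
    have h1 : v ∈ s(src d₁, tgt d₁) := hv1
    have h2 : v ∈ s(src d₂, tgt d₂) := hv2
    rw [Sym2.mem_iff] at h1 h2
    simp only [Bool.or_eq_true, beq_iff_eq]
    rcases h1 with h1 | h1 <;> rcases h2 with h2 | h2
    · left; left; left; rw [← h1, ← h2]
    · left; left; right; rw [← h1, ← h2]
    · left; right; rw [← h1, ← h2]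
    · right; rw [← h1, ← h2]
  rw [hshare, Bool.not_true, Bool.false_or, beq_iff_eq] at k2
  have hreach : ∀ v : Fin 15, (CG.delete {d₁, d₂}).Reachable 0 v := by
    intro v
    apply search_sound
    rw [k2, Nat.testBit_two_pow_sub_one]
    simp
  have hsub : Subsingleton (CG.delete {d₁, d₂}).ConnectedComponent := by
    constructor
    intro a b
    induction a using SimpleGraph.ConnectedComponent.ind with
    | h a =>
      induction b using SimpleGraph.ConnectedComponent.ind with
      | h b =>
        exact SimpleGraph.ConnectedComponent.sound ((hreach a).symm.trans (hreach b))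
  have hne : Nonempty (CG.delete {d₁, d₂}).ConnectedComponent :=
    ⟨(CG.delete {d₁, d₂}).connectedComponentMk 0⟩
  unfold MGraph.numComponents
  exact Nat.card_unique

lemma one_le_numComponents (S : Set (Fin 35)) : 1 ≤ CG.numComponents S := by
  unfold MGraph.numComponents
  have hne : Nonempty (CG.delete S).ConnectedComponent :=
    ⟨(CG.delete S).connectedComponentMk 0⟩
  exact Nat.card_pos

lemma admissible : CG.RichFlowAdmissible := by
  constructor
  · intro e he
    have h1 : CG.ShareEnd e e := ⟨src e, by simp [CG], by simp [CG]⟩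
    have h2 := connected_delete e e h1
    rw [Set.pair_eq_singleton] at h2
    unfold MGraph.Separates at he
    rw [h2] at he
    have := one_le_numComponents ∅
    omega
  · intro e f _ hsep hshare
    have h2 := connected_delete e f hshare
    unfold MGraph.Separates at hsep
    rw [h2] at hsep
    have := one_le_numComponents ∅
    omega

/-! ### Degrees -/

lemma degree_eq (v : Fin 15) :
    CG.degree v = (Finset.univ.filter (fun e : Fin 35 => src e = v ∨ tgt e = v)).card := by
  unfold MGraph.degree
  rw [Nat.card_eq_fintype_card, Fintype.card_subtype]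
  congr 1
  ext e
  have : v ∈ CG.ends e ↔ src e = v ∨ tgt e = v := by
    show v ∈ s(src e, tgt e) ↔ _
    rw [Sym2.mem_iff]
    constructor
    · rintro (h | h)
      · exact Or.inl h.symm
      · exact Or.inr h.symm
    · rintro (h | h)
      · exact Or.inl h.symm
      · exact Or.inr h.symm
  simp [this]

lemma maxDegree : CG.HasMaxDegree 5 := by
  constructor
  · intro v
    rw [degree_eq]
    revert v
    decide +kernel
  · refine ⟨0, ?_⟩
    rw [degree_eq]
    decide +kernel

/-! ### No rich `8`-flow -/

lemma shareEnd_of (e f : Fin 35)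
    (h : src e = src f ∨ src e = tgt f ∨ tgt e = src f ∨ tgt e = tgt f) : CG.ShareEnd e f := by
  rcases h with h | h | h | h
  · exact ⟨src e, by simp [CG], by simp [CG, h]⟩
  · exact ⟨src e, by simp [CG], by simp [CG, h]⟩
  · exact ⟨tgt e, by simp [CG], by simp [CG, h]⟩
  · exact ⟨tgt e, by simp [CG], by simp [CG, h]⟩

lemma noRich (φ : CG.ZFlow) : ¬ φ.IsRich 8 := by
  rintro ⟨hval, hadj⟩
  obtain ⟨f, hf⟩ : ∃ f : Fin 35 → ℤ, f = refVal φ := ⟨_, rfl⟩
  have hb : ∀ e, f e ≠ 0 ∧ |f e| < 8 := by
    intro e
    rw [hf, abs_refVal]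
    refine ⟨?_, (hval e).2⟩
    intro h0
    have := abs_refVal φ e
    rw [h0, abs_zero] at this
    exact (hval e).1 (abs_eq_zero.1 this.symm)
  have hd : ∀ e g : Fin 35, e ≠ g →
      (src e = src g ∨ src e = tgt g ∨ tgt e = src g ∨ tgt e = tgt g) → |f e| ≠ |f g| := by
    intro e g hne h
    rw [hf, abs_refVal, abs_refVal]
    exact hadj e g hne (shareEnd_of e g h)
  have hcons : ∀ v : Fin 15, ∑ e : Fin 35, ((if tgt e = v then f e else 0) -
      (if src e = v then f e else 0)) = 0 := by
    intro v
    rw [hf]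
    exact conserve_ref φ v
  clear hf hval hadj
  have c0 := hcons 0
  have c1 := hcons 1
  have c2 := hcons 2
  simp [Fin.sum_univ_succ, src, tgt] at c0 c1 c2
  have c3 := hcons 3
  have c4 := hcons 4
  have c5 := hcons 5
  simp [Fin.sum_univ_succ, src, tgt] at c3 c4 c5
  have c6 := hcons 6
  have c7 := hcons 7
  have c8 := hcons 8
  simp [Fin.sum_univ_succ, src, tgt] at c6 c7 c8
  have c9 := hcons 9
  have c10 := hcons 10
  have c11 := hcons 11
  simp [Fin.sum_univ_succ, src, tgt] at c9 c10 c11
  have c12 := hcons 12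
  have c13 := hcons 13
  have c14 := hcons 14
  simp [Fin.sum_univ_succ, src, tgt] at c12 c13 c14
  have hio0 : f 3 = f 4 := by linarith
  have hb0 : |f 3| ≠ 5 := by
    have e1 : f 3 = f 5 + f 6 + (f 7 + f 8) := by linarith
    have e2 : f 7 + f 8 = f 9 + f 10 := by linarith
    refine blob (f 3) (f 5) (f 6) (f 7) (f 8) (f 9) (f 10) (hb _) (hb _) (hb _) (hb _) (hb _) (hb _)
      (hd 3 5 (by decide) (by decide)) (hd 3 6 (by decide) (by decide))
      (hd 3 7 (by decide) (by decide)) (hd 3 8 (by decide) (by decide))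
      (by rw [hio0]; exact hd 4 9 (by decide) (by decide)) (by rw [hio0]; exact hd 4 10 (by decide) (by decide))
      (hd 5 6 (by decide) (by decide)) (hd 5 7 (by decide) (by decide))
      (hd 5 8 (by decide) (by decide)) (hd 5 9 (by decide) (by decide))
      (hd 5 10 (by decide) (by decide)) (hd 6 7 (by decide) (by decide))
      (hd 6 8 (by decide) (by decide)) (hd 6 9 (by decide) (by decide))
      (hd 6 10 (by decide) (by decide)) (hd 7 8 (by decide) (by decide))
      (hd 7 9 (by decide) (by decide)) (hd 7 10 (by decide) (by decide))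
      (hd 8 9 (by decide) (by decide)) (hd 8 10 (by decide) (by decide))
      (hd 9 10 (by decide) (by decide))
      e1 e2
  have hio1 : f 11 = f 12 := by linarith
  have hb1 : |f 11| ≠ 5 := by
    have e1 : f 11 = f 13 + f 14 + (f 15 + f 16) := by linarith
    have e2 : f 15 + f 16 = f 17 + f 18 := by linarith
    refine blob (f 11) (f 13) (f 14) (f 15) (f 16) (f 17) (f 18) (hb _) (hb _) (hb _) (hb _) (hb _) (hb _)
      (hd 11 13 (by decide) (by decide)) (hd 11 14 (by decide) (by decide))
      (hd 11 15 (by decide) (by decide)) (hd 11 16 (by decide) (by decide))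
      (by rw [hio1]; exact hd 12 17 (by decide) (by decide)) (by rw [hio1]; exact hd 12 18 (by decide) (by decide))
      (hd 13 14 (by decide) (by decide)) (hd 13 15 (by decide) (by decide))
      (hd 13 16 (by decide) (by decide)) (hd 13 17 (by decide) (by decide))
      (hd 13 18 (by decide) (by decide)) (hd 14 15 (by decide) (by decide))
      (hd 14 16 (by decide) (by decide)) (hd 14 17 (by decide) (by decide))
      (hd 14 18 (by decide) (by decide)) (hd 15 16 (by decide) (by decide))
      (hd 15 17 (by decide) (by decide)) (hd 15 18 (by decide) (by decide))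
      (hd 16 17 (by decide) (by decide)) (hd 16 18 (by decide) (by decide))
      (hd 17 18 (by decide) (by decide))
      e1 e2
  have hio2 : f 19 = f 20 := by linarith
  have hb2 : |f 19| ≠ 5 := by
    have e1 : f 19 = f 21 + f 22 + (f 23 + f 24) := by linarith
    have e2 : f 23 + f 24 = f 25 + f 26 := by linarith
    refine blob (f 19) (f 21) (f 22) (f 23) (f 24) (f 25) (f 26) (hb _) (hb _) (hb _) (hb _) (hb _) (hb _)
      (hd 19 21 (by decide) (by decide)) (hd 19 22 (by decide) (by decide))
      (hd 19 23 (by decide) (by decide)) (hd 19 24 (by decide) (by decide))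
      (by rw [hio2]; exact hd 20 25 (by decide) (by decide)) (by rw [hio2]; exact hd 20 26 (by decide) (by decide))
      (hd 21 22 (by decide) (by decide)) (hd 21 23 (by decide) (by decide))
      (hd 21 24 (by decide) (by decide)) (hd 21 25 (by decide) (by decide))
      (hd 21 26 (by decide) (by decide)) (hd 22 23 (by decide) (by decide))
      (hd 22 24 (by decide) (by decide)) (hd 22 25 (by decide) (by decide))
      (hd 22 26 (by decide) (by decide)) (hd 23 24 (by decide) (by decide))
      (hd 23 25 (by decide) (by decide)) (hd 23 26 (by decide) (by decide))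
      (hd 24 25 (by decide) (by decide)) (hd 24 26 (by decide) (by decide))
      (hd 25 26 (by decide) (by decide))
      e1 e2
  have hio3 : f 27 = f 28 := by linarith
  have hb3 : |f 27| ≠ 5 := by
    have e1 : f 27 = f 29 + f 30 + (f 31 + f 32) := by linarith
    have e2 : f 31 + f 32 = f 33 + f 34 := by linarith
    refine blob (f 27) (f 29) (f 30) (f 31) (f 32) (f 33) (f 34) (hb _) (hb _) (hb _) (hb _) (hb _) (hb _)
      (hd 27 29 (by decide) (by decide)) (hd 27 30 (by decide) (by decide))
      (hd 27 31 (by decide) (by decide)) (hd 27 32 (by decide) (by decide))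
      (by rw [hio3]; exact hd 28 33 (by decide) (by decide)) (by rw [hio3]; exact hd 28 34 (by decide) (by decide))
      (hd 29 30 (by decide) (by decide)) (hd 29 31 (by decide) (by decide))
      (hd 29 32 (by decide) (by decide)) (hd 29 33 (by decide) (by decide))
      (hd 29 34 (by decide) (by decide)) (hd 30 31 (by decide) (by decide))
      (hd 30 32 (by decide) (by decide)) (hd 30 33 (by decide) (by decide))
      (hd 30 34 (by decide) (by decide)) (hd 31 32 (by decide) (by decide))
      (hd 31 33 (by decide) (by decide)) (hd 31 34 (by decide) (by decide))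
      (hd 32 33 (by decide) (by decide)) (hd 32 34 (by decide) (by decide))
      (hd 33 34 (by decide) (by decide))
      e1 e2
  have n0_1 : |f 0| ≠ |f 1| := (hd 0 1 (by decide) (by decide))
  have n0_2 : |f 0| ≠ |f 2| := (hd 0 2 (by decide) (by decide))
  have n0_3 : |f 0| ≠ |f 3| := (hd 0 3 (by decide) (by decide))
  have n0_11 : |f 0| ≠ |f 11| := (hd 0 11 (by decide) (by decide))
  have n0_19 : |f 0| ≠ |f 19| := (hd 0 19 (by decide) (by decide))
  have n0_27 : |f 0| ≠ |f 27| := (hd 0 27 (by decide) (by decide))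
  have n1_2 : |f 1| ≠ |f 2| := (hd 1 2 (by decide) (by decide))
  have n1_3 : |f 1| ≠ |f 3| := (hd 1 3 (by decide) (by decide))
  have n1_11 : |f 1| ≠ |f 11| := (hd 1 11 (by decide) (by decide))
  have n1_19 : |f 1| ≠ |f 19| := (hd 1 19 (by decide) (by decide))
  have n1_27 : |f 1| ≠ |f 27| := (hd 1 27 (by decide) (by decide))
  have n2_3 : |f 2| ≠ |f 3| := (hd 2 3 (by decide) (by decide))
  have n2_11 : |f 2| ≠ |f 11| := (hd 2 11 (by decide) (by decide))
  have n2_19 : |f 2| ≠ |f 19| := (hd 2 19 (by decide) (by decide))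
  have n2_27 : |f 2| ≠ |f 27| := (hd 2 27 (by decide) (by decide))
  have n3_11 : |f 3| ≠ |f 11| := (hd 3 11 (by decide) (by decide))
  have n3_19 : |f 3| ≠ |f 19| := (by rw [hio0, hio2]; exact hd 4 20 (by decide) (by decide))
  have n3_27 : |f 3| ≠ |f 27| := (by rw [hio0, hio3]; exact hd 4 28 (by decide) (by decide))
  have n11_19 : |f 11| ≠ |f 19| := (by rw [hio1, hio2]; exact hd 12 20 (by decide) (by decide))
  have n11_27 : |f 11| ≠ |f 27| := (by rw [hio1, hio3]; exact hd 12 28 (by decide) (by decide))
  have n19_27 : |f 19| ≠ |f 27| := (hd 19 27 (by decide) (by decide))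
  have hz0 : |f 0| ≠ 5 := by
    have e1 : f 0 = (- f 1) + (- f 2) + ((- f 3) + (- f 11)) := by linarith
    have e2 : (- f 3) + (- f 11) = f 19 + f 27 := by linarith
    have hneg : ∀ e, - f e ≠ 0 ∧ |- f e| < 8 := fun e => by rw [abs_neg]; exact ⟨neg_ne_zero.2 (hb e).1, (hb e).2⟩
    refine blob (f 0) (- f 1) (- f 2) (- f 3) (- f 11) (f 19) (f 27) (hneg _) (hneg _) (hneg _) (hneg _) (hb _) (hb _)
      (by simpa only [abs_neg] using n0_1) (by simpa only [abs_neg] using n0_2)
      (by simpa only [abs_neg] using n0_3) (by simpa only [abs_neg] using n0_11)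
      (by simpa only [abs_neg] using n0_19) (by simpa only [abs_neg] using n0_27)
      (by simpa only [abs_neg] using n1_2) (by simpa only [abs_neg] using n1_3)
      (by simpa only [abs_neg] using n1_11) (by simpa only [abs_neg] using n1_19)
      (by simpa only [abs_neg] using n1_27) (by simpa only [abs_neg] using n2_3)
      (by simpa only [abs_neg] using n2_11) (by simpa only [abs_neg] using n2_19)
      (by simpa only [abs_neg] using n2_27) (by simpa only [abs_neg] using n3_11)
      (by simpa only [abs_neg] using n3_19) (by simpa only [abs_neg] using n3_27)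
      (by simpa only [abs_neg] using n11_19) (by simpa only [abs_neg] using n11_27)
      (by simpa only [abs_neg] using n19_27)
      e1 e2
  have hz1 : |f 1| ≠ 5 := by
    have e1 : f 1 = (- f 0) + (- f 2) + ((- f 3) + (- f 11)) := by linarith
    have e2 : (- f 3) + (- f 11) = f 19 + f 27 := by linarith
    have hneg : ∀ e, - f e ≠ 0 ∧ |- f e| < 8 := fun e => by rw [abs_neg]; exact ⟨neg_ne_zero.2 (hb e).1, (hb e).2⟩
    refine blob (f 1) (- f 0) (- f 2) (- f 3) (- f 11) (f 19) (f 27) (hneg _) (hneg _) (hneg _) (hneg _) (hb _) (hb _)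
      (by simpa only [abs_neg] using n0_1.symm) (by simpa only [abs_neg] using n1_2)
      (by simpa only [abs_neg] using n1_3) (by simpa only [abs_neg] using n1_11)
      (by simpa only [abs_neg] using n1_19) (by simpa only [abs_neg] using n1_27)
      (by simpa only [abs_neg] using n0_2) (by simpa only [abs_neg] using n0_3)
      (by simpa only [abs_neg] using n0_11) (by simpa only [abs_neg] using n0_19)
      (by simpa only [abs_neg] using n0_27) (by simpa only [abs_neg] using n2_3)
      (by simpa only [abs_neg] using n2_11) (by simpa only [abs_neg] using n2_19)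
      (by simpa only [abs_neg] using n2_27) (by simpa only [abs_neg] using n3_11)
      (by simpa only [abs_neg] using n3_19) (by simpa only [abs_neg] using n3_27)
      (by simpa only [abs_neg] using n11_19) (by simpa only [abs_neg] using n11_27)
      (by simpa only [abs_neg] using n19_27)
      e1 e2
  have hz2 : |f 2| ≠ 5 := by
    have e1 : f 2 = (- f 0) + (- f 1) + ((- f 3) + (- f 11)) := by linarith
    have e2 : (- f 3) + (- f 11) = f 19 + f 27 := by linarith
    have hneg : ∀ e, - f e ≠ 0 ∧ |- f e| < 8 := fun e => by rw [abs_neg]; exact ⟨neg_ne_zero.2 (hb e).1, (hb e).2⟩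
    refine blob (f 2) (- f 0) (- f 1) (- f 3) (- f 11) (f 19) (f 27) (hneg _) (hneg _) (hneg _) (hneg _) (hb _) (hb _)
      (by simpa only [abs_neg] using n0_2.symm) (by simpa only [abs_neg] using n1_2.symm)
      (by simpa only [abs_neg] using n2_3) (by simpa only [abs_neg] using n2_11)
      (by simpa only [abs_neg] using n2_19) (by simpa only [abs_neg] using n2_27)
      (by simpa only [abs_neg] using n0_1) (by simpa only [abs_neg] using n0_3)
      (by simpa only [abs_neg] using n0_11) (by simpa only [abs_neg] using n0_19)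
      (by simpa only [abs_neg] using n0_27) (by simpa only [abs_neg] using n1_3)
      (by simpa only [abs_neg] using n1_11) (by simpa only [abs_neg] using n1_19)
      (by simpa only [abs_neg] using n1_27) (by simpa only [abs_neg] using n3_11)
      (by simpa only [abs_neg] using n3_19) (by simpa only [abs_neg] using n3_27)
      (by simpa only [abs_neg] using n11_19) (by simpa only [abs_neg] using n11_27)
      (by simpa only [abs_neg] using n19_27)
      e1 e2
  -- seven distinct absolute values in a set of six elements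
  have hnat : ∀ e g : Fin 35, |f e| ≠ |f g| → (f e).natAbs ≠ (f g).natAbs := by
    intro e g h h'
    apply h
    rw [Int.abs_eq_natAbs, Int.abs_eq_natAbs, h']
  have hmem : ∀ e : Fin 35, |f e| ≠ 5 → (f e).natAbs ∈ ({1, 2, 3, 4, 6, 7} : Finset ℕ) := by
    intro e h5
    have h1 := (hb e).1
    have h2 := (hb e).2
    rw [Int.abs_eq_natAbs] at h2 h5
    have h3 : (f e).natAbs ≠ 0 := by
      rwa [Ne, Int.natAbs_eq_zero]
    have h4 : (f e).natAbs = 1 ∨ (f e).natAbs = 2 ∨ (f e).natAbs = 3 ∨ (f e).natAbs = 4 ∨
        (f e).natAbs = 6 ∨ (f e).natAbs = 7 := by omega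
    simp only [Finset.mem_insert, Finset.mem_singleton]
    exact h4
  have hnd : [(f 0).natAbs, (f 1).natAbs, (f 2).natAbs, (f 3).natAbs, (f 11).natAbs,
      (f 19).natAbs, (f 27).natAbs].Nodup := by
    simp only [List.nodup_cons, List.mem_cons, List.not_mem_nil, or_false, not_or,
      not_false_eq_true, List.nodup_nil, and_true]
    exact ⟨⟨hnat _ _ n0_1, hnat _ _ n0_2, hnat _ _ n0_3, hnat _ _ n0_11, hnat _ _ n0_19, hnat _ _ n0_27⟩,
      ⟨hnat _ _ n1_2, hnat _ _ n1_3, hnat _ _ n1_11, hnat _ _ n1_19, hnat _ _ n1_27⟩,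
      ⟨hnat _ _ n2_3, hnat _ _ n2_11, hnat _ _ n2_19, hnat _ _ n2_27⟩,
      ⟨hnat _ _ n3_11, hnat _ _ n3_19, hnat _ _ n3_27⟩,
      ⟨hnat _ _ n11_19, hnat _ _ n11_27⟩,
      hnat _ _ n19_27⟩
  have hcard := List.toFinset_card_of_nodup hnd
  have hle : ([(f 0).natAbs, (f 1).natAbs, (f 2).natAbs, (f 3).natAbs, (f 11).natAbs,
      (f 19).natAbs, (f 27).natAbs].toFinset).card ≤ ({1, 2, 3, 4, 6, 7} : Finset ℕ).card := by
    apply Finset.card_le_card
    intro x hx
    rw [List.mem_toFinset] at hx
    simp only [List.mem_cons, List.not_mem_nil, or_false] at hx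
    rcases hx with h | h | h | h | h | h | h <;> rw [h]
    · exact hmem _ hz0
    · exact hmem _ hz1
    · exact hmem _ hz2
    · exact hmem _ hb0
    · exact hmem _ hb1
    · exact hmem _ hb2
    · exact hmem _ hb3
  rw [hcard] at hle
  have h6 : ({1, 2, 3, 4, 6, 7} : Finset ℕ).card = 6 := by decide
  rw [h6] at hle
  simp at hle

/-- **A counterexample to the conjecture `R(G) ≤ ⌊1.5 Δ + 1⌋` for `Δ ≥ 5`.**
There is a rich flow admissible graph with 15 vertices, 35 edges and maximum degree `Δ = 5` that
has no rich `⌊1.5 Δ + 1⌋`-flow, i.e. no rich `8`-flow. -/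
theorem result : ∃ G : MGraph (Fin 15) (Fin 35),
    G.RichFlowAdmissible ∧ G.HasMaxDegree 5 ∧
      ¬ ∃ φ : G.ZFlow, φ.IsRich ⌊(3 / 2 : ℚ) * ((5 : ℕ) : ℚ) + 1⌋ := by
  refine ⟨CG, admissible, maxDegree, ?_⟩
  rintro ⟨φ, hφ⟩
  have h8 : ⌊(3 / 2 : ℚ) * ((5 : ℕ) : ℚ) + 1⌋ = 8 := by
    rw [Int.floor_eq_iff]
    norm_num
  rw [h8] at hφ
  exact noRich φ hφ

end Pool.Agent.Results.MP_9610b2_co.RichFlowCounterexample
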